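import Pool.Agent.Q63.Flower.Final33

/-!
# MP_38b438_an: the flower property fails

`T = ℝ/ℤ`, `dbl x = 2x`, `Maximizing f μ`: `μ` is an invariant Borel probability measure with
`∫ f dμ = β(f)`; `TrigOdd n f`: `f ∈ V_n`; `IsFlower X`: `X` is a flower; `petals X`: the set of
its connected components.  The definitions are in `Pool.Agent.Q63.Flower.Defs`.
-/

open MeasureTheory Set Real
open Pool.Agent.Q63.Flower

namespace Pool.Agent.Results.MP_38b438_an.FlowerDisproof

/-- **Q1, negative answer.**  For `n = 3` and for every odd `n ≥ 9` there are `f ∈ V_n` and a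
maximizing measure `μ` for `f` whose support is contained in no flower with at most `n` petals.

More precisely, for every odd `m` the function
`f (x) = 22 cos (2πmx) - (19 - √33) cos (6πmx)` of `V_{3m}` has `β(f) = 3 + √33` and a maximizing
measure whose support is contained in no flower with fewer than `5m` petals. -/
theorem result :
    (∀ n : ℕ, Odd n → (n = 3 ∨ 9 ≤ n) →
      ∃ (f : T → ℝ) (μ : Measure T), TrigOdd n f ∧ Maximizing f μ ∧
        ¬ ∃ X : Set T, IsFlower X ∧ (petals X).encard ≤ n ∧ μ.support ⊆ X) ∧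
    (∀ m : ℕ, Odd m → ∃ (f : T → ℝ) (μ : Measure T),
      (∀ t : ℝ, f (t : T) =
        22 * cos (2 * π * m * t) - (19 - √33) * cos (2 * π * (3 * m : ℕ) * t)) ∧
      beta f = 3 + √33 ∧ Maximizing f μ ∧
      ∀ X : Set T, IsFlower X → μ.support ⊆ X → ((5 * m : ℕ) : ℕ∞) ≤ (petals X).encard) := by
  refine ⟨?_, ?_⟩
  · intro n hn h
    obtain ⟨m, hm, h3, h5⟩ := exists_m hn h
    obtain ⟨μ, hμ, hfl⟩ := five_m m hm
    refine ⟨fm m, μ, fm_trig hm h3, hμ, ?_⟩
    rintro ⟨X, hX, hc, hs⟩
    have h1 := (hfl X hX hs).trans hc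
    have h2 : 5 * m ≤ n := by exact_mod_cast h1
    omega
  · intro m hm
    obtain ⟨μ, hμ, hfl⟩ := five_m m hm
    have : NeZero (33 * m) := ⟨by have := hm.pos; omega⟩
    refine ⟨fm m, μ, fm_coe m, ?_, hμ, hfl⟩
    rw [(mum_maximizing m hm).2]
    unfold om
    ring

end Pool.Agent.Results.MP_38b438_an.FlowerDisproof
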